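import Pool.Agent.H58.MinusOne.Infinite

namespace Pool.Agent.Results.MP_a25314_ag.AllInfinite

open Pool.Agent.H58.MinusOne

/-- For `n ≥ 3` and `h ≥ 1`, the blow-up of `P^n` at any `h` distinct points contains infinitely
many (-1)-curves. -/
theorem result (n h : ℕ) (hn : 3 ≤ n) (hh : 1 ≤ h) (p : Fin h → Vec n)
    (hp : DistinctPoints p) : {C | IsMinusOneCurve p C}.Infinite :=
  infinite_minusOne hn hh hp

end Pool.Agent.Results.MP_a25314_ag.AllInfinite
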