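import Pool.Agent.H58.MinusOne.General

namespace Pool.Agent.Results.MP_a25314_ag.NonContracted

open Pool.Agent.H58.MinusOne MvPolynomial

/-- For `n ≥ 3`, `h ≥ 1` and `h` general points of `P^n` (any at most four of them linearly
independent), the blow-up contains only finitely many (-1)-curves not contracted to a point of
`P^n` if and only if `h ≤ 2`. -/
theorem result (n h : ℕ) (hn : 3 ≤ n) (_hh : 1 ≤ h) :
    (∃ Q : MvPolynomial (Fin h × Fin (n + 1)) ℂ, Q ≠ 0 ∧
      ∀ p : Fin h → Vec n, eval (fun ij => p ij.1 ij.2) Q ≠ 0 → GenPos p) ∧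
    ∀ p : Fin h → Vec n, GenPos p →
      ({C | IsMinusOneCurve p C ∧ ¬ ∃ L, ∀ q ∈ C, q.1 = L}.Finite ↔ h ≤ 2) := by
  refine ⟨exists_genPos_poly hn, fun p hp => ⟨fun hfin => ?_, fun hle => ?_⟩⟩
  · by_contra hh3
    exact noncontracted_infinite hn (by omega) hp hfin
  · exact noncontracted_finite hle hp.distinct

end Pool.Agent.Results.MP_a25314_ag.NonContracted
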